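import Pool.Agent.H86.CN.Main2

set_option autoImplicit false

open scoped TensorProduct Cardinal

namespace Pool.Agent.Results.MP_7f9919_an.NormsExactCount

open Pool.Agent.Helper965.CN Pool.Agent.H86.CN

/-- Let `H` and `K` be complex Hilbert spaces with orthonormal bases of cardinality `ℵ_α` and
`ℵ_β`. There are exactly `(|α| + |β| + 2) ^ (2 ^ ℵ₀)` C*-norms on the algebraic tensor product
`B(H) ⊗ B(K)`, and exactly as many on `B(H) ⊗ Q(K)`, where `Q(K)` is the Calkin algebra. For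
separable `H` and `K` this is `2 ^ (2 ^ ℵ₀)`. -/
theorem result (H K : Type) [NormedAddCommGroup H] [InnerProductSpace ℂ H] [CompleteSpace H]
    [NormedAddCommGroup K] [InnerProductSpace ℂ K] [CompleteSpace K] (X Y : Type)
    (e : HilbertBasis X ℂ H) (f : HilbertBasis Y ℂ K) (α β : Ordinal.{0})
    (hX : #X = ℵ_ α) (hY : #Y = ℵ_ β) :
    #{N : (H →L[ℂ] H) ⊗[ℂ] (K →L[ℂ] K) → ℝ // IsCStarNorm N} =
      (α.card + β.card + 2) ^ (2 ^ ℵ₀ : Cardinal.{0}) ∧
    #{N : (H →L[ℂ] H) ⊗[ℂ] Calkin K → ℝ // IsCStarNorm N} =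
      (α.card + β.card + 2) ^ (2 ^ ℵ₀ : Cardinal.{0}) := by
  rw [Cardinal.two_power_aleph0]
  exact ⟨norms_BB e f α β hX hY, norms_BQ e f α β hX hY⟩

end Pool.Agent.Results.MP_7f9919_an.NormsExactCount
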